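import Mathlib

set_option autoImplicit false

open Set Filter Topology

namespace Pool.Agent.H.MP_19adc1_gt

lemma nrm {r : ℝ} (h : |r| ≤ 1 / 2) : ‖(r : UnitAddCircle)‖ = |r| :=
  (AddCircle.norm_coe_eq_abs_iff 1 one_ne_zero).2 (by simpa using h)

lemma nle (r : ℝ) : ‖(r : UnitAddCircle)‖ ≤ |r| := QuotientAddGroup.norm_mk_le_norm

lemma lift (t : UnitAddCircle) : ∃ r : ℝ, (r : UnitAddCircle) = t ∧ |r| = ‖t‖ := by
  obtain ⟨x, rfl⟩ := QuotientAddGroup.mk_surjective t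
  refine ⟨x - round x, ?_, UnitAddCircle.norm_eq.symm⟩
  rw [AddCircle.coe_sub, sub_eq_self]
  exact (AddCircle.coe_eq_zero_iff _).2 ⟨round x, by simp⟩

lemma smul_coe (y : ℤ) (r : ℝ) : y • (r : UnitAddCircle) = ((y * r : ℝ) : UnitAddCircle) := by
  rw [← AddCircle.coe_zsmul, zsmul_eq_mul]

lemma sgn {a b : UnitAddCircle} (ha : ‖a‖ ≤ 1 / 4) (hb : ‖b‖ ≤ 1 / 4) :
    ‖a + b‖ = ‖a‖ + ‖b‖ ∨ ‖a + -b‖ = ‖a‖ + ‖b‖ := by
  obtain ⟨r, rfl, hr⟩ := lift a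
  obtain ⟨s, rfl, hs⟩ := lift b
  rw [← AddCircle.coe_neg, ← AddCircle.coe_add, ← AddCircle.coe_add,
    nrm ((abs_add_le _ _).trans (by linarith)),
    nrm ((abs_add_le _ _).trans (by rw [abs_neg]; linarith)), ← hr, ← hs]
  rcases abs_cases r with h | h <;> rcases abs_cases s with h' | h' <;> rw [h.1, h'.1]
  · exact Or.inl (abs_of_nonneg (by linarith))
  · exact Or.inr (abs_of_nonneg (by linarith))
  · exact Or.inr (by rw [abs_of_nonpos (by linarith)]; ring)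
  · exact Or.inl (by rw [abs_of_nonpos (by linarith)]; ring)

lemma dbl {a : UnitAddCircle} (ha : ‖a‖ ≤ 1 / 4) : ‖a + a‖ = 2 * ‖a‖ := by
  rcases sgn ha ha with h | h
  · linarith
  · rw [add_neg_cancel, norm_zero] at h
    have h1 : a = 0 := norm_eq_zero.1 (by linarith)
    simp [h1]

lemma rigid {Y : Set ℤ} {L θ μ c : ℝ} {η : UnitAddCircle}
    (hY : ∀ w : ℝ, ∃ y ∈ Y, |(y : ℝ) - w| ≤ L) (hθ : 0 < θ) (h1 : θ * L ≤ μ / 2)
    (h2 : ‖η‖ * L < c) (h3 : c ≤ μ / 40) (h4 : μ ≤ 1)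
    (h : ∀ y ∈ Y, ‖y • (θ : UnitAddCircle)‖ ≤ μ → ‖y • η‖ ≤ c) : η = 0 := by
  by_contra h0
  obtain ⟨r, hr, hr'⟩ : ∃ r : ℝ, r = ‖η‖ ∧ ∀ y : ℤ, ‖y • η‖ = ‖((y * r : ℝ) : UnitAddCircle)‖ := by
    obtain ⟨r, rfl, h5⟩ := lift η
    refine ⟨|r|, h5, fun y => ?_⟩
    rw [smul_coe]
    rcases abs_cases r with h | h <;> rw [h.1]
    rw [mul_neg, AddCircle.coe_neg, norm_neg]
  have hp : 0 < r := hr ▸ norm_pos_iff.2 h0
  rw [← hr] at h2
  have hL : 0 ≤ L := by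
    obtain ⟨y, -, hy⟩ := hY 0
    exact (abs_nonneg _).trans hy
  have hc : 0 < c := lt_of_le_of_lt (by positivity) h2
  have key : ∀ (w : ℝ) (k : ℤ), |w * θ - k| ≤ μ / 2 → 2 * c ≤ w * r → w * r ≤ 1 / 2 - c →
      False := fun w k a1 a2 a3 => by
    obtain ⟨y, y1, y2⟩ := hY w
    have b1 : |(y : ℝ) * r - w * r| ≤ r * L := by
      rw [← sub_mul, abs_mul, abs_of_pos hp, mul_comm]
      exact mul_le_mul_of_nonneg_left y2 hp.le
    have b2 : |(y : ℝ) * θ - w * θ| ≤ θ * L := by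
      rw [← sub_mul, abs_mul, abs_of_pos hθ, mul_comm]
      exact mul_le_mul_of_nonneg_left y2 hθ.le
    have b3 : y • (θ : UnitAddCircle) = ((y * θ - k : ℝ) : UnitAddCircle) := by
      rw [smul_coe, AddCircle.coe_sub, eq_comm, sub_eq_self]
      exact (AddCircle.coe_eq_zero_iff _).2 ⟨k, by simp⟩
    have b4 := h y y1 (by
      rw [b3]
      refine (nle _).trans ?_
      rw [abs_le] at b2 a1 ⊢
      constructor <;> linarith)
    rw [abs_le] at b1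
    rw [hr', nrm (by rw [abs_le]; constructor <;> linarith), abs_le] at b4
    linarith
  rcases le_or_gt (2 * c / r * θ) (μ / 2) with h5 | h5
  · refine key (2 * c / r) 0 ?_ (by rw [div_mul_cancel₀ _ hp.ne']) ?_
    · rw [Int.cast_zero, sub_zero, abs_of_nonneg (by positivity)]
      exact h5
    · rw [div_mul_cancel₀ _ hp.ne']
      linarith
  · have h6 : r / θ ≤ 1 / 10 := by
      rw [div_mul_eq_mul_div, lt_div_iff₀ hp] at h5
      rw [div_le_iff₀ hθ]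
      have : 0 < μ := by linarith
      nlinarith
    have h7 := abs_sub_round (θ / (4 * r))
    have h8 : (round (θ / (4 * r)) : ℝ) / θ * r - 1 / 4 =
        -(θ / (4 * r) - round (θ / (4 * r))) * (r / θ) := by
      field_simp
      ring
    have h9 : 0 < r / θ := div_pos hp hθ
    rw [abs_le] at h7
    refine key (round (θ / (4 * r)) / θ) (round (θ / (4 * r))) ?_ (by nlinarith) (by nlinarith)
    rw [div_mul_cancel₀ _ hθ.ne', sub_self, abs_zero]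
    linarith

lemma cpt (V : Set ℤ) (P : ℤ → Prop) (c δ : ℝ) (hδ : 0 < δ) : ∀ᶠ B : ℕ in atTop,
    ∀ χ : UnitAddCircle, (∀ y ∈ V, |(y : ℝ)| ≤ B → P y → ‖y • χ‖ ≤ c) →
      ∃ p : UnitAddCircle, ‖χ - p‖ < δ ∧ ∀ y ∈ V, P y → ‖y • p‖ ≤ c := by
  let K : ℕ → Set UnitAddCircle := fun B => {χ | ∀ y ∈ V, |(y : ℝ)| ≤ B → P y → ‖y • χ‖ ≤ c}
  have hK : Antitone K := fun a b hab χ h y y1 y2 => h y y1 (y2.trans (by exact_mod_cast hab))
  obtain ⟨B, hB⟩ := exists_subset_nhds_of_compactSpace (V := K) hK.directed_ge (fun B => by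
      simp only [K, ofPred_forall]
      exact isClosed_iInter fun y => isClosed_iInter fun _ => isClosed_iInter fun _ =>
        isClosed_iInter fun _ => isClosed_le (by fun_prop) continuous_const)
    (U := Metric.thickening δ (⋂ B, K B)) fun x hx =>
      Metric.isOpen_thickening.mem_nhds (Metric.self_subset_thickening hδ _ hx)
  filter_upwards [eventually_ge_atTop B] with B' h χ hχ
  obtain ⟨p, p1, p2⟩ := Metric.mem_thickening_iff.1 (hB (hK h hχ))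
  refine ⟨p, by rwa [← dist_eq_norm], fun y hy => ?_⟩
  obtain ⟨n, hn⟩ := exists_nat_ge |(y : ℝ)|
  exact mem_iInter.1 p1 n y hy hn

noncomputable def e (n : ℕ) : ℝ := 1 / ((n : ℝ) + 1)

lemma e_pos (n : ℕ) : 0 < e n := Nat.one_div_pos_of_nat
lemma e_anti {n m : ℕ} (h : n ≤ m) : e m ≤ e n := Nat.one_div_le_one_div h
lemma e_ev {r : ℝ} (h : 0 < r) : ∃ N, ∀ n, N ≤ n → e n < r :=
  (exists_nat_one_div_lt h).imp fun _ hN _ hn => (e_anti hn).trans_lt hN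

theorem core (F : Filter ℤ) [F.IsCountablyGenerated]
    (f1 : ∀ U ∈ F, ∃ V ∈ F, ∀ v ∈ V, ∀ w ∈ V, v + w ∈ U) (f2 : ∀ U ∈ F, {y | -y ∈ U} ∈ F)
    (f3 : ∀ U ∈ F, (0 : ℤ) ∈ U) (f4 : ∀ U ∈ F, ∃ L : ℝ, ∀ w : ℝ, ∃ y ∈ U, |(y : ℝ) - w| ≤ L)
    (f5 : ∀ ε > 0, ∃ θ : ℝ, 0 < θ ∧ θ < ε ∧
      Tendsto (fun y : ℤ => y • (θ : UnitAddCircle)) F (𝓝 0)) :
    ∃ h : ℕ → UnitAddCircle, (∀ n, Tendsto (fun y : ℤ => y • h n) F (𝓝 0)) ∧
      {y : ℤ | ∀ n, ‖y • h n‖ ≤ 1 / 10} ∉ F ∧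
      ∀ (χ : UnitAddCircle), ∀ U ∈ F, ∀ ρ > 0,
        (∀ x ∈ U, (∀ n, ‖x • h n‖ ≤ ρ) → ‖x • χ‖ ≤ 1 / 4) →
        ∃ U' ∈ F, ∀ y ∈ U', ‖y • χ‖ ≤ 1 / 4 := by
  obtain ⟨O, hO⟩ := F.exists_antitone_basis
  let T := {s : Set ℤ × ℝ × ℝ // s.1 ∈ F ∧ (∀ y ∈ s.1, -y ∈ s.1) ∧ 1 ≤ s.2.1 ∧
    (∀ w : ℝ, ∃ y ∈ s.1, |(y : ℝ) - w| ≤ s.2.1) ∧ 0 ≤ s.2.2}
  have st : ∀ (n : ℕ) (s : T), ∃ (θ B : ℝ) (s' : T), 0 < θ ∧ θ * s.1.2.1 ≤ e n ∧
      θ * s.1.2.2 ≤ e n ∧ Tendsto (fun y : ℤ => y • (θ : UnitAddCircle)) F (𝓝 0) ∧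
      (∀ v ∈ s'.1.1, ∀ w ∈ s'.1.1, v + w ∈ s.1.1) ∧ s'.1.1 ⊆ O n ∧
      (∀ y ∈ s'.1.1, ‖y • (θ : UnitAddCircle)‖ ≤ e n) ∧ s.1.2.2 + B ≤ s'.1.2.2 ∧ 0 ≤ B ∧
      ∀ i ≤ n, ∀ χ : UnitAddCircle, (∀ y ∈ s.1.1, |(y : ℝ)| ≤ B →
        ‖y • (θ : UnitAddCircle)‖ ≤ e i → ‖y • χ‖ ≤ e i / 80) →
        ∃ p : UnitAddCircle, ‖χ - p‖ * s.1.2.1 ≤ e n ∧ ‖χ - p‖ * s'.1.2.1 ≤ e n ∧
          ∀ y ∈ s.1.1, ‖y • (θ : UnitAddCircle)‖ ≤ e i → ‖y • p‖ ≤ e i / 80 := by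
    rintro n ⟨⟨V, L, S⟩, s1, s2, s3, s4, s5⟩
    dsimp only at s1 s2 s3 s4 s5 ⊢
    have en := e_pos n
    obtain ⟨θ, t1, t2, t3⟩ := f5 (e n / (L + S)) (by positivity)
    rw [lt_div_iff₀ (by positivity)] at t2
    obtain ⟨V1, v1, v2⟩ := f1 V s1
    have v3 : V1 ∩ O n ∩ {y | ‖y • (θ : UnitAddCircle)‖ ≤ e n} ∈ F :=
      inter_mem (inter_mem v1 (hO.mem n)) (t3.norm.eventually_le_const (by simpa using en))
    obtain ⟨L', l1⟩ := f4 _ (inter_mem v3 (f2 _ v3))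
    have l2 : 0 < L + max L' 1 := by positivity
    obtain ⟨B, hB⟩ := ((eventually_all_finite (finite_Iic n)).2 fun i _ => cpt V
      (fun y => ‖y • (θ : UnitAddCircle)‖ ≤ e i) (e i / 80) _ (div_pos en l2)).exists
    refine ⟨θ, B, ⟨(_, max L' 1, S + B), inter_mem v3 (f2 _ v3), fun y hy => ⟨hy.2, by
      simpa using hy.1⟩, le_max_right _ _, fun w => (l1 w).imp fun y hy =>
        ⟨hy.1, hy.2.trans (le_max_left _ _)⟩, by positivity⟩, t1, by nlinarith, by nlinarith, t3,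
      fun v hv w hw => v2 v hv.1.1.1 w hw.1.1.1, fun y hy => hy.1.1.2, fun y hy => hy.1.2, le_rfl,
      B.cast_nonneg, fun i hi χ hχ => ?_⟩
    obtain ⟨p, p1, p2⟩ := hB i hi χ hχ
    rw [lt_div_iff₀ l2] at p1
    have := norm_nonneg (χ - p)
    have l3 : 0 ≤ max L' 1 := by positivity
    exact ⟨p, by nlinarith, by dsimp only; nlinarith, p2⟩
  choose θ' B' nx t1 t2 t3 t4 t5 t6 t7 t8 t9 t10 using st
  obtain ⟨L0, l0⟩ := f4 univ univ_mem
  obtain ⟨s, hs⟩ : ∃ s : ℕ → T, ∀ n, s (n + 1) = nx n (s n) :=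
    ⟨fun n => Nat.rec ⟨(univ, max L0 1, 0), univ_mem, fun _ _ => trivial, le_max_right _ _,
      fun w => (l0 w).imp fun y hy => ⟨hy.1, hy.2.trans (le_max_left _ _)⟩, le_rfl⟩ nx n,
      fun _ => rfl⟩
  obtain ⟨V, hV⟩ : ∃ V : ℕ → Set ℤ, ∀ n, V n = (s n).1.1 := ⟨_, fun _ => rfl⟩
  obtain ⟨L, hL⟩ : ∃ L : ℕ → ℝ, ∀ n, L n = (s n).1.2.1 := ⟨_, fun _ => rfl⟩
  obtain ⟨S, hS⟩ : ∃ S : ℕ → ℝ, ∀ n, S n = (s n).1.2.2 := ⟨_, fun _ => rfl⟩
  obtain ⟨θ, hθ⟩ : ∃ θ : ℕ → ℝ, ∀ n, θ n = θ' n (s n) := ⟨_, fun _ => rfl⟩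
  obtain ⟨B, hB⟩ : ∃ B : ℕ → ℝ, ∀ n, B n = B' n (s n) := ⟨_, fun _ => rfl⟩
  have a1 := fun n => t1 n (s n)
  have a2 := fun n => t2 n (s n)
  have a3 := fun n => t3 n (s n)
  have a4 := fun n => t4 n (s n)
  have a5 := fun n => t5 n (s n)
  have a6 := fun n => t6 n (s n)
  have a7 := fun n => t7 n (s n)
  have a8 := fun n => t8 n (s n)
  have a9 := fun n => t9 n (s n)
  have a10 := fun n => t10 n (s n)
  have b1 := fun n => (s n).2.1
  have b2 := fun n => (s n).2.2.1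
  have b3 := fun n => (s n).2.2.2.1
  have b4 := fun n => (s n).2.2.2.2.1
  have b5 := fun n => (s n).2.2.2.2.2
  simp only [← hs, ← hV, ← hL, ← hS, ← hθ, ← hB] at a1 a2 a3 a4 a5 a6 a7 a8 a9 a10 b1 b2 b3 b4 b5
  clear t1 t2 t3 t4 t5 t6 t7 t8 t9 t10 hs hV hL hS hθ hB l0
  clear θ' B' nx s
  have c1 : Antitone V := antitone_nat_of_succ_le fun n y hy => by
    simpa using a5 n y hy 0 (f3 _ (b1 _))
  have c2 : Monotone S := monotone_nat_of_le_succ fun n => by linarith [a8 n, a9 n]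
  have c3 : ∀ U ∈ F, ∃ N, ∀ n, N ≤ n → V n ⊆ U := fun U hU => by
    obtain ⟨N, hN⟩ := hO.mem_iff.1 hU
    exact ⟨N + 1, fun n hn => (c1 hn).trans ((a6 N).trans hN)⟩
  refine ⟨fun n => θ n, a4, fun h => ?_, fun χ U hU ρ hρ h => ?_⟩
  · obtain ⟨N, hN⟩ := c3 _ h
    obtain ⟨M, hM⟩ := e_ev (show (0 : ℝ) < 1 / 10 by norm_num)
    obtain ⟨y, y1, y2⟩ := b4 (max N M) (1 / (4 * θ (max N M)))
    have h1 := hN _ (le_max_left _ _) y1 (max N M)
    have h2 := hM _ (le_max_right N M)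
    have h3 := mul_le_mul_of_nonneg_left y2 (a1 (max N M)).le
    have h4 := a2 (max N M)
    rw [← abs_of_pos (a1 (max N M)), ← abs_mul, abs_of_pos (a1 _), mul_sub, mul_comm,
      show θ (max N M) * (1 / (4 * θ (max N M))) = 1 / 4 by
        have := a1 (max N M); field_simp, abs_le] at h3
    rw [smul_coe, nrm (by rw [abs_le]; constructor <;> linarith), abs_le] at h1
    linarith
  obtain ⟨J, hJ⟩ := e_ev (show 0 < ρ / 4 by positivity)
  obtain ⟨N, N1, N2⟩ : ∃ N, J ≤ N ∧ ∀ M, N ≤ M → ∀ v ∈ V M, ∀ w ∈ V M, v + w ∈ U ∧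
      ∀ j < M, ‖(v + w) • (θ j : UnitAddCircle)‖ ≤ ρ := by
    obtain ⟨N, hN⟩ := c3 (U ∩ {y | ∀ j ∈ Iio J, ‖y • (θ j : UnitAddCircle)‖ ≤ ρ}) (inter_mem hU
      ((eventually_all_finite (finite_Iio J)).2 fun j _ =>
        (a4 j).norm.eventually_le_const (by simpa using hρ)))
    refine ⟨max J (N + 1), le_max_left _ _, fun M hM v hv w hw => ?_⟩
    have h1 := hN N le_rfl (a5 N v (c1 ((le_max_right _ _).trans hM) hv) w
      (c1 ((le_max_right _ _).trans hM) hw))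
    refine ⟨h1.1, fun j hj => ?_⟩
    rcases lt_or_ge j J with h2 | h2
    · exact h1.2 j h2
    · rw [add_smul]
      linarith [norm_add_le (v • (θ j : UnitAddCircle)) (w • θ j), a7 j v (c1 hj hv),
        a7 j w (c1 hj hw), hJ j h2]
  let P : ℕ → ℤ → Prop := fun M x => N ≤ M ∧ |(x : ℝ)| ≤ S M ∧ ∀ v ∈ V M, ∀ w ∈ V M,
    x + (v + w) ∈ U ∧ ∀ j < M, ‖(x + (v + w)) • (θ j : UnitAddCircle)‖ ≤ ρ
  have hx : ∀ (x : ℤ) j, |(x : ℝ)| ≤ S j → ‖x • (θ j : UnitAddCircle)‖ ≤ e j := fun x j h => by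
    rw [smul_coe]
    refine (nle _).trans (le_trans ?_ (a3 j))
    rw [abs_mul, abs_of_pos (a1 j), mul_comm]
    exact mul_le_mul_of_nonneg_left h (a1 j).le
  have p0 : ∀ M, N ≤ M → P M 0 := fun M hM => ⟨hM, by simpa using b5 M, by simpa using N2 M hM⟩
  have p1 : ∀ M x, P M x → ‖x • χ‖ ≤ 1 / 4 := fun M x hP => by
    obtain ⟨h1, h2⟩ := hP.2.2 0 (f3 _ (b1 _)) 0 (f3 _ (b1 _))
    simp only [add_zero] at h1 h2
    refine h x h1 fun j => ?_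
    rcases lt_or_ge j M with h3 | h3
    · exact h2 j h3
    · linarith [hx x j (hP.2.1.trans (c2 h3)), hJ j (N1.trans (hP.1.trans h3))]
  have p2 : ∀ M x z, P M x → z ∈ V M → |(z : ℝ)| ≤ B M → ‖z • (θ M : UnitAddCircle)‖ ≤ e J →
      P (M + 1) (x + z) := fun M x z hP z1 z2 z3 => by
    refine ⟨hP.1.trans M.le_succ, ?_, fun v hv w hw => ?_⟩
    · rw [Int.cast_add]
      linarith [abs_add_le (x : ℝ) z, a8 M, hP.2.1]
    · obtain ⟨h1, h2⟩ := hP.2.2 z z1 _ (a5 M v hv w hw)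
      rw [add_assoc]
      refine ⟨h1, fun j hj => ?_⟩
      rcases (Nat.lt_succ_iff.1 hj).lt_or_eq with h3 | rfl
      · exact h2 j h3
      · rw [add_smul, add_smul, add_smul]
        linarith [norm_add_le (x • (θ j : UnitAddCircle)) (z • θ j + (v • θ j + w • θ j)),
          norm_add_le (z • (θ j : UnitAddCircle)) (v • θ j + w • θ j),
          norm_add_le (v • (θ j : UnitAddCircle)) (w • θ j), a7 j v hv, a7 j w hw,
          hx x j hP.2.1, hJ j (N1.trans hP.1), hJ J le_rfl]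
  have p3 : ∀ M x M', M ≤ M' → P M x → P M' x := fun M x M' hM hP => by
    induction hM with
    | refl => exact hP
    | step _ ih =>
      simpa using p2 _ x 0 ih (f3 _ (b1 _)) (by simpa using a9 _) (by simpa using (e_pos J).le)
  have eJ := e_pos J
  obtain ⟨N', hN'⟩ : ∃ N', ∀ n, N' ≤ n → ∀ y ∈ V n, |(y : ℝ)| ≤ B n →
      ‖y • (θ n : UnitAddCircle)‖ ≤ e J → ‖y • χ‖ ≤ e J / 80 := by
    by_contra h1
    push Not at h1
    have h2 : ∀ k : ℕ, ∃ M x, P M x ∧ k * (e J / 80) ≤ ‖x • χ‖ := fun k => by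
      induction k with
      | zero => exact ⟨N, 0, p0 N le_rfl, by simp⟩
      | succ k ih =>
        obtain ⟨M, x, x1, x2⟩ := ih
        obtain ⟨n, hn, y, y1, y2, y3, y4⟩ := h1 M
        have x3 := p3 M x n hn x1
        have y5 := p1 _ _ (p2 n 0 y (p0 n x3.1) y1 y2 y3)
        rw [zero_add] at y5
        rcases sgn (p1 _ _ x1) y5 with h3 | h3
        · exact ⟨n + 1, x + y, p2 n x y x3 y1 y2 y3, by rw [add_smul, h3]; push_cast; linarith⟩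
        · exact ⟨n + 1, x + -y, p2 n x _ x3 (b2 n y y1) (by simpa using y2) (by simpa using y3),
            by rw [add_smul, neg_smul, h3]; push_cast; linarith⟩
    obtain ⟨k, hk⟩ := exists_nat_gt (1 / 4 / (e J / 80))
    obtain ⟨M, x, x1, x2⟩ := h2 k
    rw [div_lt_iff₀ (by positivity)] at hk
    linarith [p1 M x x1]
  obtain ⟨M, hM⟩ := e_ev (show 0 < e J / 80 by positivity)
  have d1 : ∀ n, ∃ p : UnitAddCircle, max J (max N' M) ≤ n → ‖χ - p‖ * L n ≤ e n ∧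
      ‖χ - p‖ * L (n + 1) ≤ e n ∧
        ∀ y ∈ V n, ‖y • (θ n : UnitAddCircle)‖ ≤ e J → ‖y • p‖ ≤ e J / 80 := fun n => by
    rcases em (max J (max N' M) ≤ n) with h1 | h1
    · obtain ⟨p, hp⟩ := a10 n J ((le_max_left _ _).trans h1) χ
        (hN' n (((le_max_left _ _).trans (le_max_right _ _)).trans h1))
      exact ⟨p, fun _ => hp⟩
    · exact ⟨0, fun h => absurd h h1⟩
  choose p hp using d1
  generalize hK : max J (max N' M) = K at hp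
  have k1 : J ≤ K := hK ▸ le_max_left _ _
  have k2 : M ≤ K := hK ▸ (le_max_right _ _).trans (le_max_right _ _)
  have e1 : e J ≤ 1 := (e_anti J.zero_le).trans (by simp [e])
  have d2 : ∀ n, K ≤ n → ∀ y ∈ V (n + 1), ‖y • p n‖ ≤ e J / 80 := fun n hn y hy =>
    (hp n hn).2.2 y (c1 n.le_succ hy) ((a7 n y hy).trans (e_anti (k1.trans hn)))
  have d3 : ∀ n, K ≤ n → p n = p K := fun n hn => by
    induction hn with
    | refl => rfl
    | @step n hn ih =>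
      replace hn : K ≤ n := hn
      rw [← ih, ← sub_eq_zero]
      have h1 := hM n (k2.trans hn)
      have h2 := hM (n + 1) (k2.trans (hn.trans n.le_succ))
      refine rigid (μ := e J) (c := e J / 40) (b4 (n + 1)) (a1 (n + 1))
        (by linarith [a2 (n + 1)]) ?_
        le_rfl e1 fun y y1 y2 => ?_
      · have h3 := norm_sub_le (χ - p n) (χ - p (n + 1))
        rw [sub_sub_sub_cancel_left] at h3
        have h4 := mul_le_mul_of_nonneg_right h3 (zero_le_one.trans (b3 (n + 1)))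
        linarith [(hp n hn).2.1, (hp (n + 1) (hn.trans n.le_succ)).1]
      · rw [smul_sub]
        linarith [norm_sub_le (y • p (n + 1)) (y • p n), d2 n hn y y1,
          (hp (n + 1) (hn.trans n.le_succ)).2.2 y y1 y2]
  have d4 : χ = p K := by
    by_contra h1
    obtain ⟨m, hm⟩ := e_ev (norm_pos_iff.2 (sub_ne_zero.2 h1))
    have h2 := (hp _ (le_max_left K m)).1
    rw [d3 _ (le_max_left K m)] at h2
    nlinarith [hm _ (le_max_right K m), b3 (max K m), norm_nonneg (χ - p K)]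
  exact ⟨V (K + 1), b1 _, fun y hy => by rw [d4]; linarith [d2 K le_rfl y hy]⟩

lemma cont {G : Type} [AddCommGroup G] [TopologicalSpace G] [IsTopologicalAddGroup G]
    (χ : G →+ UnitAddCircle) {U : Set G} (hU : U ∈ 𝓝 0) (h : ∀ y ∈ U, ‖χ y‖ ≤ 1 / 4) :
    Continuous χ := by
  have h1 : ∀ k : ℕ, ∀ᶠ y in 𝓝 0, ‖χ y‖ ≤ 1 / 4 * (1 / 2) ^ k := fun k => by
    induction k with
    | zero => filter_upwards [hU] with y hy using by simpa using h y hy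
    | succ k ih =>
      obtain ⟨V, v1, v2⟩ := exists_nhds_zero_half ih
      filter_upwards [v1, hU] with y y1 y2
      have h2 : ‖χ (y + y)‖ ≤ 1 / 4 * (1 / 2) ^ k := v2 y y1 y y1
      rw [map_add, dbl (h y y2)] at h2
      rw [pow_succ]
      linarith
  refine continuous_of_continuousAt_zero χ (Metric.tendsto_nhds.2 fun ε hε => ?_)
  obtain ⟨k, hk⟩ := exists_pow_lt_of_lt_one hε (show (1 / 2 : ℝ) < 1 by norm_num)
  filter_upwards [h1 k] with y hy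
  rw [map_zero, dist_zero_right]
  have : (0 : ℝ) < (1 / 2) ^ k := by positivity
  linarith

lemma dbls (a : UnitAddCircle) (k : ℕ) (h : ∀ j ≤ k, ‖(2 ^ j : ℤ) • a‖ ≤ 1 / 4) :
    ‖a‖ ≤ 1 / 4 * (1 / 2) ^ k := by
  induction k generalizing a with
  | zero => simpa using h 0 le_rfl
  | succ k ih =>
    have h1 := ih (a + a) fun j hj => by
      rw [← two_zsmul, smul_smul, ← pow_succ]
      exact h _ (Nat.succ_le_succ hj)
    rw [dbl (by simpa using h 0 (Nat.zero_le _))] at h1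
    rw [pow_succ]
    linarith

theorem main (τ : TopologicalSpace ℤ) (g1 : @IsTopologicalAddGroup ℤ τ _)
    (g2 : @FirstCountableTopology ℤ τ)
    (g3 : ∀ U ∈ @nhds ℤ τ 0, ∃ F : Set ℤ, F.Finite ∧ ∀ x, ∃ f ∈ F, ∃ u ∈ U, f + u = x)
    (g4 : ∀ x : ℤ, x ≠ 0 → ∃ χ : ℤ →+ UnitAddCircle, Continuous[τ, _] χ ∧ χ x ≠ 0) :
    ∃ σ : TopologicalSpace ℤ, @IsTopologicalAddGroup ℤ σ _ ∧ σ ≤ τ ∧ ¬ τ ≤ σ ∧
      (∀ χ : ℤ →+ UnitAddCircle, Continuous[σ, _] χ ↔ Continuous[τ, _] χ) ∧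
      ∀ W ∈ @nhds ℤ σ 0, ∃ U ∈ @nhds ℤ τ 0, ∃ A ∈ @nhds ℤ σ 0, U ∩ A ⊆ W ∧
        ∀ x ∉ A, ∃ χ : ℤ →+ UnitAddCircle, Continuous[τ, _] χ ∧ (∀ a ∈ A, ‖χ a‖ ≤ 1 / 4) ∧
          1 / 4 < ‖χ x‖ := by
  have hs : ∀ (χ : ℤ →+ UnitAddCircle) (y : ℤ), χ y = y • χ 1 := fun χ y => by
    rw [← map_zsmul, smul_eq_mul, mul_one]
  have hc : ∀ t : UnitAddCircle, Tendsto (fun y : ℤ => y • t) (@nhds ℤ τ 0) (𝓝 0) ↔
      Continuous[τ, _] (zmultiplesHom _ t) := fun t =>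
    ⟨fun h => continuous_of_continuousAt_zero _ (by rw [ContinuousAt, map_zero]; exact h),
      fun h => by have := h.tendsto 0; rw [map_zero] at this; exact this⟩
  obtain ⟨h, h1, h2, h3⟩ := core (@nhds ℤ τ 0) (fun U hU => exists_nhds_zero_half hU)
    (fun U hU => neg_mem_nhds_zero ℤ hU) (fun U hU => mem_of_mem_nhds hU) (fun U hU => by
      obtain ⟨F, f1, f2⟩ := g3 U hU
      obtain ⟨C, hC⟩ := (f1.image fun f : ℤ => |(f : ℝ)|).bddAbove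
      refine ⟨C + 1, fun w => ?_⟩
      obtain ⟨f, hf, u, hu, h⟩ := f2 ⌊w⌋
      have h1 := abs_le.1 (hC ⟨f, hf, rfl⟩ : |(f : ℝ)| ≤ C)
      have h2 : (f : ℝ) + u = ⌊w⌋ := by exact_mod_cast h
      exact ⟨u, hu, abs_le.2 ⟨by linarith [Int.lt_floor_add_one w], by linarith [Int.floor_le w]⟩⟩)
    (fun ε hε => by
      let H : AddSubgroup ℝ :=
        { carrier := {r | Tendsto (fun y : ℤ => y • (r : UnitAddCircle)) (@nhds ℤ τ 0) (𝓝 0)}
          add_mem' := fun ha hb => by simpa using ha.out.add hb.out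
          zero_mem' := by simp
          neg_mem' := fun ha => by simpa using ha.out.neg }
      rcases H.dense_or_cyclic with h | ⟨a, ha⟩
      · obtain ⟨θ, t1, t2⟩ := h.exists_between hε
        exact ⟨θ, t2.1, t2.2, t1⟩
      · have h1 : (1 : ℝ) ∈ H := by
          show Tendsto _ _ _
          simp only [AddCircle.coe_period, smul_zero]
          exact tendsto_const_nhds
        rw [ha, AddSubgroup.mem_closure_singleton] at h1
        obtain ⟨k, hk⟩ := h1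
        obtain ⟨χ, c1, c2⟩ := g4 k (by rintro rfl; simp at hk)
        obtain ⟨r, hr⟩ := QuotientAddGroup.mk_surjective (χ 1)
        have h2 : r ∈ H := by
          show Tendsto _ _ _
          simpa [hr, ← hs] using c1.tendsto 0
        rw [ha, AddSubgroup.mem_closure_singleton] at h2
        obtain ⟨m, rfl⟩ := h2
        refine absurd ?_ c2
        rw [hs, ← hr, ← AddCircle.coe_zsmul, smul_comm, hk]
        exact (AddCircle.coe_eq_zero_iff _).2 ⟨m, rfl⟩)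
  let b : BoundedContinuousFunction ℕ UnitAddCircle :=
    BoundedContinuousFunction.ofNormedAddCommGroupDiscrete h _
      fun n => AddCircle.norm_le_half_period 1 one_ne_zero
  obtain ⟨κ, hκ⟩ : ∃ κ : Unit → TopologicalSpace ℤ,
    κ () = TopologicalSpace.induced (zmultiplesHom _ b) inferInstance := ⟨fun _ => _, rfl⟩
  have k1 : ∀ ρ > 0, {y : ℤ | ∀ n, ‖y • h n‖ ≤ ρ} ∈ @nhds ℤ (κ ()) 0 := fun ρ hρ => by
    rw [hκ, nhds_induced, map_zero]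
    exact ⟨_, Metric.closedBall_mem_nhds 0 hρ, fun y hy n =>
      (BoundedContinuousFunction.norm_le hρ.le).1 (mem_closedBall_zero_iff.1 hy) n⟩
  have k2 : ∀ W ∈ @nhds ℤ (τ ⊓ κ ()) 0, ∃ U ∈ @nhds ℤ τ 0, ∃ ρ > 0,
      ∀ x ∈ U, (∀ n, ‖x • h n‖ ≤ ρ) → x ∈ W := fun W hW => by
    rw [_root_.nhds_inf, hκ, nhds_induced, map_zero] at hW
    obtain ⟨U, hU, _, ⟨Z, z1, z2⟩, rfl⟩ := hW
    obtain ⟨ρ, r1, r2⟩ := Metric.nhds_basis_closedBall.mem_iff.1 z1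
    exact ⟨U, hU, ρ, r1, fun x x1 x2 => ⟨x1, z2 (r2 (mem_closedBall_zero_iff.2
      ((BoundedContinuousFunction.norm_le r1.le).2 x2)))⟩⟩
  refine ⟨τ ⊓ κ (), topologicalAddGroup_inf g1 (hκ ▸ topologicalAddGroup_induced _), inf_le_left,
    fun hle => h2 (_root_.nhds_mono (hle.trans inf_le_right) (k1 _ (by norm_num))),
    fun χ => ⟨fun hχ => ?_, fun hχ => continuous_le_dom inf_le_left hχ⟩, fun W hW => ?_⟩
  · obtain ⟨U, u1, ρ, r1, r2⟩ := k2 {y | ‖χ y‖ ≤ 1 / 4}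
      ((@Continuous.tendsto _ _ (τ ⊓ κ ()) _ _ hχ 0).norm.eventually_le_const (by simp))
    obtain ⟨U', u2, u3⟩ := h3 (χ 1) U u1 ρ r1 fun x x1 x2 => hs χ x ▸ r2 x x1 x2
    exact cont χ u2 fun y hy => hs χ y ▸ u3 y hy
  · obtain ⟨U, u1, ρ, r1, r2⟩ := k2 W hW
    obtain ⟨k, hk⟩ := exists_pow_lt_of_lt_one r1 (show (1 / 2 : ℝ) < 1 by norm_num)
    have hp : (0 : ℝ) < (1 / 2) ^ k := by positivity
    refine ⟨U, u1, {y | ∀ n, ∀ j ≤ k, ‖(2 ^ j : ℤ) • y • h n‖ ≤ 1 / 4},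
      mem_of_superset (_root_.nhds_mono inf_le_right (k1 (1 / 4 / 2 ^ k) (by positivity)))
        (fun y hy n j hj => ?_), fun y hy => r2 y hy.1 fun n => by
          linarith [dbls _ k (hy.2 n)], fun x hx => ?_⟩
    · refine (norm_zsmul_le _ _).trans ?_
      have h4 : (2 : ℝ) ^ j ≤ 2 ^ k := pow_le_pow_right₀ one_le_two hj
      have h5 := (le_div_iff₀ (by positivity)).1 (hy n)
      rw [norm_pow, show ‖(2 : ℤ)‖ = 2 by simp [Int.norm_eq_abs]]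
      nlinarith [norm_nonneg (y • h n)]
    · simp only [mem_ofPred_eq, not_forall, not_le] at hx
      obtain ⟨n, j, hj, hx⟩ := hx
      refine ⟨zmultiplesHom _ ((2 ^ j : ℤ) • h n), (hc _).1 ?_, fun a ha => ?_, ?_⟩
      · simpa only [smul_comm _ (2 ^ j : ℤ), smul_zero] using (h1 n).zsmul (2 ^ j)
      · rw [zmultiplesHom_apply, smul_comm]
        exact ha n j hj
      · rw [zmultiplesHom_apply, smul_comm]
        exact hx

end Pool.Agent.H.MP_19adc1_gt
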